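import Pool.Agent.Lib.MP_d4e25a_co.Exist

set_option autoImplicit false

namespace Pool.Agent.Results.MP_d4e25a_co.AsymptoticExistence

open Pool.Agent.MP_d4e25a_co

/-- Asymptotic existence of skew-Hadamard matrices and of doubly regular tournaments: for every odd
number `n = 2 N + 1` they exist in all orders `2 ^ t n` and `2 ^ t n - 1`, `t ≥ 4 modes N`; and for every
positive `m` in all orders `2 ^ t m` and `2 ^ t m - 1`, `t ≥ 8 log m`. -/
theorem result :
    (∀ N t : ℕ, 4 * modes N ≤ t →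
      (∃ H : Matrix (Fin (2 ^ t * (2 * N + 1))) (Fin (2 ^ t * (2 * N + 1))) ℤ, IsSkewHadamard H) ∧
      (∃ R : Fin (2 ^ t * (2 * N + 1) - 1) → Fin (2 ^ t * (2 * N + 1) - 1) → Prop,
        IsDoublyRegular R)) ∧
    (∀ m t : ℕ, 0 < m → 8 * Nat.log 2 m ≤ t →
      (∃ H : Matrix (Fin (2 ^ t * m)) (Fin (2 ^ t * m)) ℤ, IsSkewHadamard H) ∧
      (∃ R : Fin (2 ^ t * m - 1) → Fin (2 ^ t * m - 1) → Prop, IsDoublyRegular R)) :=
  ⟨fun N t h => ⟨(hasCore_main N t h).skewHadamard, (hasCore_main N t h).tournament⟩,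
    fun m t hm h => ⟨(hasCore_log m t hm h).skewHadamard, (hasCore_log m t hm h).tournament⟩⟩

end Pool.Agent.Results.MP_d4e25a_co.AsymptoticExistence
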