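import Pool.Agent.Lib.MP_d4e25a_co.Sublog

set_option autoImplicit false

namespace Pool.Agent.Results.MP_d4e25a_co.SublogExponent

open Pool.Agent.MP_d4e25a_co

/-- Skew-Hadamard matrices of order `2 ^ t * m` and doubly regular tournaments on `2 ^ t * m - 1`
vertices exist for all `m ≥ 3` and all `t ≥ 126 log m / log log m`. -/
theorem result (m : ℕ) (hm : 3 ≤ m) (t : ℕ)
    (ht : 126 * Real.log m / Real.log (Real.log m) ≤ t) :
    (∃ H : Matrix (Fin (2 ^ t * m)) (Fin (2 ^ t * m)) ℤ, IsSkewHadamard H) ∧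
      (∃ R : Fin (2 ^ t * m - 1) → Fin (2 ^ t * m - 1) → Prop, IsDoublyRegular R) :=
  ⟨(hasCore_sublog m hm t ht).skewHadamard, (hasCore_sublog m hm t ht).tournament⟩

end Pool.Agent.Results.MP_d4e25a_co.SublogExponent
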